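import Mathlib
import Pool.Agent.U180.NG.Stm2

/-!
Project NG (helper180), second part, package UPP2 (helper88): almost surely the upper limit of the
normalized error is at most `2 (spread)^(1/2)`.
-/

set_option autoImplicit false

open MeasureTheory ProbabilityTheory Filter Topology

namespace Pool.Agent.U88.NG

open Pool.Agent.U180.NG

/-- the normalization -/
noncomputable def L (R : ℝ) : ℝ := Real.sqrt (R * Real.log R)

/-- the points of the grid -/
noncomputable def g (η : ℝ) (j i : ℕ) : ℝ := η * ((j : ℝ) + (i : ℝ) / (j : ℝ))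

lemma L_nonneg (R : ℝ) : 0 ≤ L R := Real.sqrt_nonneg _

lemma L_mono {R R' : ℝ} (h1 : 1 ≤ R) (h2 : R ≤ R') : L R ≤ L R' := by
  unfold L
  apply Real.sqrt_le_sqrt
  have h3 : Real.log R ≤ Real.log R' := Real.log_le_log (by linarith) h2
  have h4 : 0 ≤ Real.log R := Real.log_nonneg h1
  exact mul_le_mul h2 h3 h4 (by linarith)

lemma L_sq {R : ℝ} (h1 : 1 ≤ R) : L R ^ 2 = R * Real.log R := by
  unfold L
  exact Real.sq_sqrt (mul_nonneg (by linarith) (Real.log_nonneg h1))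

lemma L_le (a : ℝ) (ha : 0 < a) : ∀ᶠ R : ℝ in atTop, L R ≤ a * R := by
  have h1 := Real.isLittleO_log_id_atTop.bound (show (0 : ℝ) < a ^ 2 by positivity)
  filter_upwards [h1, eventually_ge_atTop (1 : ℝ)] with R hR hR1
  have h2 : Real.log R ≤ a ^ 2 * R := by
    have h3 := le_trans (le_abs_self _) hR
    simp only [id, Real.norm_eq_abs] at h3
    rwa [abs_of_pos (by linarith : (0 : ℝ) < R)] at h3
  unfold L
  apply Real.sqrt_le_iff.2
  refine ⟨by positivity, ?_⟩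
  have h4 : R * Real.log R ≤ R * (a ^ 2 * R) := mul_le_mul_of_nonneg_left h2 (by linarith)
  nlinarith

lemma L_ge (K : ℝ) : ∀ᶠ R : ℝ in atTop, K * Real.sqrt R ≤ L R := by
  filter_upwards [Real.tendsto_log_atTop.eventually_ge_atTop (K ^ 2), eventually_ge_atTop (1 : ℝ)]
    with R hR hR1
  rcases le_or_gt K 0 with hK | hK
  · exact (mul_nonpos_of_nonpos_of_nonneg hK (Real.sqrt_nonneg _)).trans (L_nonneg R)
  unfold L
  rw [Real.sqrt_mul (by linarith), mul_comm]
  apply mul_le_mul_of_nonneg_left _ (Real.sqrt_nonneg _)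
  exact Real.le_sqrt_of_sq_le hR

/-- The deterministic part. -/
lemma combine {η e κ C c : ℝ} {N M : ℝ → ℝ} (hη : 0 < η) (hη1 : η ≤ 1) (he : 0 < e) (hκ : 0 ≤ κ)
    (hC : 0 ≤ C) (hc : κ + 3 * e ≤ c) (hM : ∀ R, 1 ≤ R → |M R - Real.pi * R ^ 2| ≤ C * Real.sqrt R)
    (mono : ∀ R R' : ℝ, 0 ≤ R → R ≤ R' → N R ≤ N R')
    (hA : ∀ᶠ j : ℕ in atTop, |N (η * j) - M (η * j)| ≤ (κ + e) * L (η * j))
    (hB : ∀ᶠ j : ℕ in atTop, ∀ i ∈ Finset.range (j + 1),
      |(N (g η j i) - N (η * j)) - (M (g η j i) - M (η * j))| ≤ e * L (η * j)) :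
    ∀ᶠ R : ℝ in atTop, |N R - Real.pi * R ^ 2| ≤ c * L R := by
  obtain ⟨J, hJ⟩ := eventually_atTop.1 (hA.and hB)
  filter_upwards [eventually_ge_atTop (η * (J + 1)), eventually_ge_atTop (3 : ℝ),
    L_ge ((2 * C + 13) / e)] with R hR1 hR2 hR3
  set j : ℕ := ⌊R / η⌋₊ with hj
  have hRη : 0 ≤ R / η := by positivity
  have hj1 : (j : ℝ) ≤ R / η := Nat.floor_le hRη
  have hj2 : R / η < (j : ℝ) + 1 := Nat.lt_floor_add_one _
  have hj1' : η * j ≤ R := by rw [le_div_iff₀ hη] at hj1; linarith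
  have hj2' : R < η * (j + 1) := by rw [div_lt_iff₀ hη] at hj2; linarith
  have hJj : J ≤ j := by
    rw [hj]
    apply Nat.le_floor
    rw [le_div_iff₀ hη]
    nlinarith
  have hj3 : 1 < (j : ℝ) := by nlinarith
  have hj0 : (0 : ℝ) < j := by linarith
  have hηj : 1 ≤ η * j := by nlinarith
  set x : ℝ := (R / η - j) * j with hx
  have hx0 : 0 ≤ x := mul_nonneg (by linarith) hj0.le
  have hxj : x < j := by
    rw [hx]
    nlinarith
  set i : ℕ := ⌊x⌋₊ with hi
  have hi1 : (i : ℝ) ≤ x := Nat.floor_le hx0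
  have hi2 : x < (i : ℝ) + 1 := Nat.lt_floor_add_one _
  have hij : i < j := by
    have : (i : ℝ) < j := by linarith
    exact_mod_cast this
  obtain ⟨hA', hB'⟩ := hJ j hJj
  have hB1 := hB' i (Finset.mem_range.2 (by omega))
  have hB2 := hB' (i + 1) (Finset.mem_range.2 (by omega))
  set R1 := g η j i with hR1'
  set R2 := g η j (i + 1) with hR2'
  have hxR : R = η * (j + x / j) := by
    rw [hx, mul_div_assoc, div_self hj0.ne', mul_one]
    field_simp
    ring
  have h1 : R1 ≤ R := by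
    rw [hR1', g, hxR]
    apply mul_le_mul_of_nonneg_left _ hη.le
    have := div_le_div_of_nonneg_right hi1 hj0.le
    linarith
  have h2 : R ≤ R2 := by
    rw [hR2', g]
    conv_lhs => rw [hxR]
    apply mul_le_mul_of_nonneg_left _ hη.le
    push_cast
    have := div_le_div_of_nonneg_right hi2.le hj0.le
    linarith
  have h3 : η * j ≤ R1 := by
    rw [hR1', g]
    apply mul_le_mul_of_nonneg_left _ hη.le
    have : (0 : ℝ) ≤ i / j := by positivity
    linarith
  have h4 : R2 ≤ η * (j + 1) := by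
    rw [hR2', g]
    apply mul_le_mul_of_nonneg_left _ hη.le
    have : ((i + 1 : ℕ) : ℝ) / j ≤ 1 := by
      rw [div_le_one hj0]
      exact_mod_cast hij
    linarith
  have h5 : R2 - R1 = η / j := by
    rw [hR1', hR2', g, g]
    push_cast
    field_simp
    ring
  have h6 : Real.pi * (R2 ^ 2 - R1 ^ 2) ≤ 13 := by
    have h7 : R2 ^ 2 - R1 ^ 2 = (η / j) * (R2 + R1) := by rw [← h5]; ring
    have h8 : R2 + R1 ≤ 4 * j := by nlinarith
    have h9 : (η / j) * (R2 + R1) ≤ (η / j) * (4 * j) := mul_le_mul_of_nonneg_left h8 (by positivity)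
    have h10 : (η / j) * (4 * j) = 4 * η := by field_simp
    have h11 : R2 ^ 2 - R1 ^ 2 ≤ 4 := by rw [h7]; linarith
    have h12 := Real.pi_lt_d2
    have h13 := Real.pi_pos
    nlinarith
  have hLj : L (η * j) ≤ L R := L_mono hηj hj1'
  have hm1 := hM R1 (by linarith)
  have hm2 := hM R2 (by linarith)
  have hn1 := mono R1 R (by linarith) h1
  have hn2 := mono R R2 (by linarith) h2
  have hs1 : Real.sqrt R1 ≤ 2 * Real.sqrt R := by
    have := Real.sqrt_le_sqrt h1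
    linarith [Real.sqrt_nonneg R]
  have hs2 : Real.sqrt R2 ≤ 2 * Real.sqrt R := by
    have h7 : R2 ≤ 4 * R := by nlinarith
    have h8 := Real.sqrt_le_sqrt h7
    rw [Real.sqrt_mul (by norm_num), show (4 : ℝ) = 2 ^ 2 by norm_num,
      Real.sqrt_sq (by norm_num)] at h8
    exact h8
  have hs0 : 1 ≤ Real.sqrt R := by
    rw [Real.one_le_sqrt]
    linarith
  have hKe : (2 * C + 13) * Real.sqrt R ≤ e * L R := by
    rw [div_mul_eq_mul_div, div_le_iff₀ he] at hR3
    linarith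
  have hpi1 : Real.pi * R1 ^ 2 ≤ Real.pi * R ^ 2 := by
    apply mul_le_mul_of_nonneg_left _ Real.pi_pos.le
    nlinarith
  have hpi2 : Real.pi * R ^ 2 ≤ Real.pi * R2 ^ 2 := by
    apply mul_le_mul_of_nonneg_left _ Real.pi_pos.le
    nlinarith
  have hCs1 : C * Real.sqrt R1 ≤ C * (2 * Real.sqrt R) := mul_le_mul_of_nonneg_left hs1 hC
  have hCs2 : C * Real.sqrt R2 ≤ C * (2 * Real.sqrt R) := mul_le_mul_of_nonneg_left hs2 hC
  have hLR : (κ + 2 * e) * L (η * j) ≤ (κ + 2 * e) * L R :=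
    mul_le_mul_of_nonneg_left hLj (by positivity)
  have hcL : (κ + 3 * e) * L R ≤ c * L R := mul_le_mul_of_nonneg_right hc (L_nonneg R)
  rw [abs_le] at hA' hB1 hB2 hm1 hm2 ⊢
  constructor
  · nlinarith [hA'.1, hA'.2, hB1.1, hB1.2, hB2.1, hB2.2, hm1.1, hm1.2, hm2.1, hm2.2]
  · nlinarith [hA'.1, hA'.2, hB1.1, hB1.2, hB2.1, hB2.2, hm1.1, hm1.2, hm2.1, hm2.2]

/-- The first Borel-Cantelli lemma. -/
lemma bc {Ω : Type} [MeasurableSpace Ω] (P : Measure Ω) [IsProbabilityMeasure P] (E : ℕ → Set Ω)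
    (f : ℕ → ℝ) (hf : Summable f) (h : ∀ᶠ j in atTop, P.real (E j) ≤ f j) :
    ∀ᵐ ω ∂P, ∀ᶠ j in atTop, ω ∉ E j := by
  obtain ⟨J, hJ⟩ := eventually_atTop.1 h
  have h1 : ∑' j, P (E (j + J)) ≠ ⊤ := by
    refine ne_top_of_le_ne_top ((summable_nat_add_iff J).2 hf).tsum_ofReal_ne_top ?_
    refine ENNReal.tsum_le_tsum fun j => ?_
    rw [← ofReal_measureReal]
    exact ENNReal.ofReal_le_ofReal (hJ _ (by omega))
  filter_upwards [ae_eventually_notMem h1] with ω hω
  obtain ⟨a, ha⟩ := eventually_atTop.1 hω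
  refine eventually_atTop.2 ⟨a + J, fun b hb => ?_⟩
  have := ha (b - J) (by omega)
  rwa [Nat.sub_add_cancel (by omega)] at this

/-- The exponential bound. -/
lemma exp_bound {R W t a b : ℝ} (hR : 1 ≤ R) (h1 : t ^ 2 / (2 * W) = a * Real.log R)
    (h2 : b ≤ (1 - 2 * t / W) * a) :
    2 * Real.exp (-((1 - 2 * t / W) * t ^ 2 / (2 * W))) ≤ 2 * R ^ (-b) := by
  rw [Real.rpow_def_of_pos (by linarith)]
  apply mul_le_mul_of_nonneg_left _ (by norm_num)
  apply Real.exp_le_exp.2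
  have h3 : (1 - 2 * t / W) * t ^ 2 / (2 * W) = ((1 - 2 * t / W) * a) * Real.log R := by
    rw [mul_div_assoc, h1]; ring
  rw [h3]
  have h4 : 0 ≤ Real.log R := Real.log_nonneg hR
  nlinarith

/-- Tails of the number of points. -/
lemma tail_A (h2 : S_TU) {Ω : Type} [MeasurableSpace Ω] (P : Measure Ω) [IsProbabilityMeasure P]
    (ξ : ℤ × ℤ → Ω → ℝ × ℝ) (S : ℝ → Finset (ℤ × ℤ)) {s κ e : ℝ} (hs : 0 < s)
    (hκ : κ = 2 * Real.sqrt s) (he : 0 < e)
    (hS : ∀ R : ℝ, 1 ≤ R → ∀ᵐ ω ∂P, (count (fun z => ξ z ω) R : ℝ) -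
        ∫ ω, (count (fun z => ξ z ω) R : ℝ) ∂P = ∑ z ∈ S R, (ind ξ R z ω - ∫ ω, ind ξ R z ω ∂P))
    (hV : Tendsto (fun R : ℝ => (∑ z ∈ S R, (∫ ω, ind ξ R z ω ∂P) *
        (1 - ∫ ω, ind ξ R z ω ∂P)) / R) atTop (𝓝 (2 * s)))
    (hmeas : ∀ R z, Measurable (ind ξ R z)) (hind : ∀ R, iIndepFun (ind ξ R) P) :
    ∃ b : ℝ, 1 < b ∧ ∀ᶠ R : ℝ in atTop, P.real {ω | (κ + e) * L R ≤
      |(count (fun z => ξ z ω) R : ℝ) - ∫ ω, (count (fun z => ξ z ω) R : ℝ) ∂P|} ≤
        2 * R ^ (-b) := by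
  have hκ0 : 0 < κ := by rw [hκ]; positivity
  have hκ2 : κ ^ 2 = 4 * s := by
    rw [hκ, mul_pow, Real.sq_sqrt hs.le]; norm_num
  set θ : ℝ := (κ + e) ^ 2 / (4 * s) with hθ
  have hθ1 : 1 < θ := by
    rw [hθ, one_lt_div (by positivity)]
    nlinarith
  set q : ℝ := Real.sqrt θ with hq
  have hq2 : q ^ 2 = θ := Real.sq_sqrt (by linarith)
  have hq1 : 1 < q := by
    rw [hq, Real.lt_sqrt (by norm_num)]
    simpa using hθ1
  have hke : 0 < κ + e := by positivity
  refine ⟨(1 + q) / 2, by linarith, ?_⟩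
  have ha : 0 < s * (q - 1) / (2 * (κ + e)) := by
    apply div_pos (mul_pos hs (by linarith)) (by positivity)
  filter_upwards [L_le _ ha, eventually_ge_atTop (1 : ℝ),
    hV.eventually_le_const (show 2 * s < 2 * s * q by nlinarith)] with R hL hR hVR
  have hR0 : 0 < R := by linarith
  set W : ℝ := 2 * s * q * R with hW
  have hW0 : 0 < W := by positivity
  have hL' : (κ + e) * L R ≤ s * (q - 1) / 2 * R := by
    have h4 := mul_le_mul_of_nonneg_left hL hke.le
    have h5 : (κ + e) * (s * (q - 1) / (2 * (κ + e)) * R) = s * (q - 1) / 2 * R := by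
      field_simp
    linarith
  have ht : 0 ≤ (κ + e) * L R := mul_nonneg hke.le (L_nonneg R)
  have hsR : 0 < s * R := by positivity
  have htW : (κ + e) * L R ≤ W / 4 := by
    rw [hW]
    nlinarith
  have hVW : ∑ z ∈ S R, (∫ ω, ind ξ R z ω ∂P) * (1 - ∫ ω, ind ξ R z ω ∂P) ≤ W := by
    rw [div_le_iff₀ hR0] at hVR
    exact hVR
  have h4 := h2 Ω (ℤ × ℤ) P inferInstance (ind ξ R) (S R) W ((κ + e) * L R) (hmeas R) (hind R)
    (fun z ω => by
      unfold ind
      by_cases h : ξ z ω ∈ disc R z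
      · right; exact Set.indicator_of_mem h _
      · left; exact Set.indicator_of_notMem h _) hW0 hVW ht htW
  have h5 : P.real {ω | (κ + e) * L R ≤
      |(count (fun z => ξ z ω) R : ℝ) - ∫ ω, (count (fun z => ξ z ω) R : ℝ) ∂P|} =
      P.real {ω | (κ + e) * L R ≤ |∑ z ∈ S R, (ind ξ R z ω - ∫ ω, ind ξ R z ω ∂P)|} := by
    apply measureReal_congr
    filter_upwards [hS R hR] with ω hω
    change ((κ + e) * L R ≤ |_|) = ((κ + e) * L R ≤ |_|)
    rw [hω]
  rw [h5]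
  refine h4.trans (exp_bound (a := q) hR ?_ ?_)
  · rw [mul_pow, L_sq hR, hW]
    have h6 : (κ + e) ^ 2 = 4 * s * q ^ 2 := by
      rw [hq2, hθ]; field_simp
    rw [h6]
    field_simp
    ring
  · have h7 : 2 * ((κ + e) * L R) / W ≤ (q - 1) / (2 * q) := by
      rw [div_le_div_iff₀ hW0 (by positivity), hW]
      have h8 : 0 < q := by linarith
      nlinarith [mul_le_mul_of_nonneg_left hL' h8.le]
    have h8 : (1 + q) / 2 = (1 - (q - 1) / (2 * q)) * q := by
      field_simp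
      ring
    rw [h8]
    apply mul_le_mul_of_nonneg_right _ (by linarith)
    linarith

/-- Tails of the increments. -/
lemma tail_B (h3 : S_INC) {Ω : Type} [MeasurableSpace Ω] (P : Measure Ω) [IsProbabilityMeasure P]
    {δ ρ : ℝ} {μ : Measure (ℝ × ℝ)} (ξ : ℤ × ℤ → Ω → ℝ × ℝ) (hξ : IsNoise P δ ρ μ ξ)
    {C e η : ℝ} (hC : 0 < C) (he : 0 < e) (hη : η = e ^ 2 / 200) (hη1 : η ≤ 1)
    (hM : ∀ R : ℝ, 1 ≤ R → |∫ ω, (count (fun z => ξ z ω) R : ℝ) ∂P - Real.pi * R ^ 2| ≤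
        C * Real.sqrt R) :
    ∀ᶠ R : ℝ in atTop, ∀ R' : ℝ, R ≤ R' → R' ≤ R + η →
      P.real {ω | e * L R ≤ |((count (fun z => ξ z ω) R' : ℝ) - count (fun z => ξ z ω) R) -
        (∫ ω, (count (fun z => ξ z ω) R' : ℝ) ∂P - ∫ ω, (count (fun z => ξ z ω) R : ℝ) ∂P)|} ≤
      2 * R ^ (-6 : ℝ) := by
  have hη0 : 0 < η := by rw [hη]; positivity
  filter_upwards [L_le (2 * η / e) (by positivity), eventually_ge_atTop (1 : ℝ),
    Real.tendsto_sqrt_atTop.eventually_ge_atTop ((4 * C + 4) / η)] with R hL hR hsq R' h1 h2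
  have hR0 : 0 < R := by linarith
  set W : ℝ := 8 * η * R with hW
  have hW0 : 0 < W := by positivity
  have heL : e * L R ≤ 2 * η * R := by
    have h4 := mul_le_mul_of_nonneg_left hL he.le
    have h5 : e * (2 * η / e * R) = 2 * η * R := by field_simp
    linarith
  have hsR' : Real.sqrt R' ≤ 2 * Real.sqrt R := by
    have h7 : R' ≤ 4 * R := by nlinarith
    have h8 := Real.sqrt_le_sqrt h7
    rw [Real.sqrt_mul (by norm_num), show (4 : ℝ) = 2 ^ 2 by norm_num,
      Real.sqrt_sq (by norm_num)] at h8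
    exact h8
  have hs0 : 1 ≤ Real.sqrt R := by
    rw [Real.one_le_sqrt]
    linarith
  have hmean : ∫ ω, (count (fun z => ξ z ω) R' : ℝ) ∂P - ∫ ω, (count (fun z => ξ z ω) R : ℝ) ∂P
      ≤ W := by
    have hm1 := (abs_le.1 (hM R hR)).1
    have hm2 := (abs_le.1 (hM R' (by linarith))).2
    have h5 : C * Real.sqrt R' ≤ C * (2 * Real.sqrt R) := mul_le_mul_of_nonneg_left hsR' hC.le
    have h6 : (4 * C + 4) * Real.sqrt R ≤ η * R := by
      rw [div_le_iff₀ hη0] at hsq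
      have h7 : R = Real.sqrt R * Real.sqrt R := (Real.mul_self_sqrt hR0.le).symm
      have h8 : (4 * C + 4) * Real.sqrt R ≤ (Real.sqrt R * η) * Real.sqrt R :=
        mul_le_mul_of_nonneg_right hsq (Real.sqrt_nonneg _)
      have h9 : (Real.sqrt R * η) * Real.sqrt R = η * R := by
        nth_rewrite 3 [h7]
        ring
      linarith
    have h10 : Real.pi * (R' ^ 2 - R ^ 2) ≤ 6.4 * (η * R) + 4 := by
      have h11 : R' ^ 2 - R ^ 2 ≤ η * (2 * R + η) := by nlinarith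
      have h12 := Real.pi_lt_d2
      have h13 := Real.pi_pos
      have h14 : Real.pi * (R' ^ 2 - R ^ 2) ≤ Real.pi * (η * (2 * R + η)) :=
        mul_le_mul_of_nonneg_left h11 h13.le
      have h15 : Real.pi * (η * (2 * R + η)) ≤ 3.15 * (η * (2 * R + η)) :=
        mul_le_mul_of_nonneg_right h12.le (by positivity)
      nlinarith [mul_pos hη0 hR0]
    rw [hW]
    nlinarith [Real.sqrt_nonneg R]
  have h4 := h3 Ω P inferInstance δ ρ μ ξ hξ R R' W (e * L R) hR0.le h1 hmean hW0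
    (mul_nonneg he.le (L_nonneg R)) (by rw [hW]; linarith)
  refine h4.trans (exp_bound (a := 25 / 2) (b := 6) hR ?_ ?_)
  · rw [mul_pow, L_sq hR, hW, hη]
    field_simp
    ring
  · have h7 : 2 * (e * L R) / W ≤ 1 / 2 := by
      rw [div_le_div_iff₀ hW0 (by norm_num), hW]
      linarith
    nlinarith

theorem t_UPP2 (h1 : S_FLUC2) (h2 : S_TU) (h3 : S_INC) : S_UPP2 := by
  intro Ω _ P hP δ ρ μ ξ hξ c hc
  obtain ⟨C, r, S, hC, -, hsp, hM, hS, hV, hmeas, hind, hmono⟩ := h1 Ω P hP δ ρ μ ξ hξ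
  set s := spread (noiseLaw δ μ) with hs
  set κ : ℝ := 2 * Real.sqrt s with hκ
  have hκ0 : 0 < κ := by rw [hκ]; positivity
  set e : ℝ := min 1 ((c - κ) / 3) with he
  have he0 : 0 < e := lt_min one_pos (by linarith)
  have he1 : e ≤ 1 := min_le_left _ _
  have hec : κ + 3 * e ≤ c := by
    have := min_le_right 1 ((c - κ) / 3)
    rw [← he] at this
    linarith
  set η : ℝ := e ^ 2 / 200 with hη
  have hη0 : 0 < η := by positivity
  have hη1 : η ≤ 1 := by
    rw [hη]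
    nlinarith
  obtain ⟨b, hb, hA⟩ := tail_A h2 P ξ S hsp hκ he0 (fun R hR => (hS R hR).2) hV hmeas hind
  have hB := tail_B h3 P ξ hξ hC he0 hη hη1 hM
  have htend : Tendsto (fun j : ℕ => η * (j : ℝ)) atTop atTop :=
    (tendsto_natCast_atTop_atTop).const_mul_atTop hη0
  -- the coarse grid
  have hA1 : ∀ᵐ ω ∂P, ∀ᶠ j : ℕ in atTop, ω ∉ {ω | (κ + e) * L (η * j) ≤
      |(count (fun z => ξ z ω) (η * j) : ℝ) - ∫ ω, (count (fun z => ξ z ω) (η * j) : ℝ) ∂P|} := by
    apply bc P _ (fun j : ℕ => 2 * (η ^ (-b) * (j : ℝ) ^ (-b)))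
    · exact ((Real.summable_nat_rpow.2 (by linarith)).mul_left _).mul_left _
    · filter_upwards [htend.eventually hA] with j hj
      rwa [Real.mul_rpow hη0.le (Nat.cast_nonneg j)] at hj
  -- the fine grid
  have hB1 : ∀ᵐ ω ∂P, ∀ᶠ j : ℕ in atTop, ω ∉ ⋃ i ∈ Finset.range (j + 1), {ω | e * L (η * j) ≤
      |((count (fun z => ξ z ω) (g η j i) : ℝ) - count (fun z => ξ z ω) (η * j)) -
        (∫ ω, (count (fun z => ξ z ω) (g η j i) : ℝ) ∂P -
          ∫ ω, (count (fun z => ξ z ω) (η * j) : ℝ) ∂P)|} := by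
    apply bc P _ (fun j : ℕ => 4 * (η ^ (-6 : ℝ) * (j : ℝ) ^ (-5 : ℝ)))
    · exact ((Real.summable_nat_rpow.2 (by norm_num)).mul_left _).mul_left _
    · filter_upwards [htend.eventually hB, eventually_ge_atTop 1] with j hj hj1
      have hj0 : (0 : ℝ) < j := by exact_mod_cast hj1
      have hj1' : (1 : ℝ) ≤ j := by exact_mod_cast hj1
      refine (measureReal_biUnion_finset_le _ _).trans ?_
      have h4 : ∀ i ∈ Finset.range (j + 1), P.real {ω | e * L (η * j) ≤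
        |((count (fun z => ξ z ω) (g η j i) : ℝ) - count (fun z => ξ z ω) (η * j)) -
          (∫ ω, (count (fun z => ξ z ω) (g η j i) : ℝ) ∂P -
          ∫ ω, (count (fun z => ξ z ω) (η * j) : ℝ) ∂P)|} ≤ 2 * (η * j) ^ (-6 : ℝ) := by
        intro i hi
        have hi' : i ≤ j := by
          have := Finset.mem_range.1 hi
          omega
        have hi0 : (0 : ℝ) ≤ (i : ℝ) / j := by positivity
        have hi1 : (i : ℝ) / j ≤ 1 := by
          rw [div_le_one hj0]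
          exact_mod_cast hi'
        apply hj
        · unfold g
          nlinarith
        · unfold g
          nlinarith
      refine (Finset.sum_le_sum h4).trans ?_
      rw [Finset.sum_const, Finset.card_range, nsmul_eq_mul,
        Real.mul_rpow hη0.le (Nat.cast_nonneg j)]
      have h5 : (j : ℝ) ^ (-5 : ℝ) = j * (j : ℝ) ^ (-6 : ℝ) := by
        rw [show (-5 : ℝ) = 1 + (-6) by norm_num, Real.rpow_add hj0, Real.rpow_one]
      rw [h5]
      push_cast
      have h6 : 0 < η ^ (-6 : ℝ) * (j : ℝ) ^ (-6 : ℝ) :=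
        mul_pos (Real.rpow_pos_of_pos hη0 _) (Real.rpow_pos_of_pos hj0 _)
      nlinarith
  filter_upwards [hA1, hB1, hmono] with ω hω1 hω2 hω3
  refine combine (N := fun R => (count (fun z => ξ z ω) R : ℝ))
    (M := fun R => ∫ ω, (count (fun z => ξ z ω) R : ℝ) ∂P) hη0 hη1 he0 hκ0.le hC.le hec hM
    (fun R R' h h' => by exact_mod_cast hω3 R R' h h') ?_ ?_
  · filter_upwards [hω1] with j hj
    exact (not_le.1 hj).le
  · filter_upwards [hω2] with j hj i hi
    by_contra hcon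
    apply hj
    rw [Set.mem_iUnion₂]
    exact ⟨i, hi, (not_le.1 hcon).le⟩

end Pool.Agent.U88.NG
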